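import Mathlib
import Pool.Agent.Helper91.SemiLat

/-!
A countable metrizable topological semilattice which is `c`-complete but not `s`-complete.

The space has a zero `e`, isolated points `(a,b,c)` (`a ≤ b` and `c` natural numbers), and limit
points `(a,∞,c)` with `a ≤ c`; the product is the coordinatewise maximum, and `(a,b,c)` tends to
`(a,∞,max a c)` as `b` tends to infinity.
-/

open Set TopologicalSpace

namespace Pool.Agent.Results.MP_5a7388_gt.NotSComplete

/-- A topological semilattice: a topological space with a continuous binary operation that is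
associative, commutative and idempotent. -/
structure IsTopSemilattice (X : Type) [TopologicalSpace X] (m : X → X → X) : Prop where
  assoc : ∀ x y z, m (m x y) z = m x (m y z)
  comm : ∀ x y, m x y = m y x
  idem : ∀ x, m x x = x
  cont : Continuous fun p : X × X => m p.1 p.2

variable {X : Type}

/-- The natural partial order: `x ≤ y` iff `xy = x`. -/
def Le (m : X → X → X) (x y : X) : Prop := m x y = x

/-- `i` is the infimum of `A` in the natural order of `X`. -/
def IsInf (m : X → X → X) (A : Set X) (i : X) : Prop :=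
  (∀ a ∈ A, Le m i a) ∧ ∀ z, (∀ a ∈ A, Le m z a) → Le m z i

/-- `s` is the supremum of `A` in the natural order of `X`. -/
def IsSup (m : X → X → X) (A : Set X) (s : X) : Prop :=
  (∀ a ∈ A, Le m a s) ∧ ∀ z, (∀ a ∈ A, Le m a z) → Le m s z

/-- A chain: any two elements are comparable. -/
def Chain (m : X → X → X) (C : Set X) : Prop := ∀ x ∈ C, ∀ y ∈ C, Le m x y ∨ Le m y x

/-- The lower set generated by `A`. -/
def down (m : X → X → X) (A : Set X) : Set X := {x | ∃ a ∈ A, Le m x a}

/-- The upper set generated by `A`. -/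
def up (m : X → X → X) (A : Set X) : Set X := {x | ∃ a ∈ A, Le m a x}

/-- `s`-completeness. -/
def SComplete [TopologicalSpace X] (m : X → X → X) : Prop :=
  (∀ S : Set X, S.Nonempty → (∀ x ∈ S, ∀ y ∈ S, m x y ∈ S) →
    ∃ i, IsInf m S i ∧ i ∈ closure (up m S)) ∧
  (∀ C : Set X, C.Nonempty → Chain m C → ∃ s, IsSup m C s ∧ s ∈ closure (down m C))

/-- `c`-completeness. -/
def CComplete [TopologicalSpace X] (m : X → X → X) : Prop :=
  ∀ F : Set X, IsClosed F → F = up m F → ∀ C : Set X, C ⊆ F → C.Nonempty → Chain m C →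
    (∃ i, IsInf m C i ∧ i ∈ F) ∧ (∃ s, IsSup m C s ∧ s ∈ closure (down m C))

open Pool.Agent.Helper91.SemiLat in
/-- There is a (countable, metrizable) Hausdorff topological semilattice that is `c`-complete but
not `s`-complete. -/
theorem result : ∃ (X : Type) (_ : TopologicalSpace X) (m : X → X → X),
    T2Space X ∧ MetrizableSpace X ∧ Countable X ∧
    IsTopSemilattice X m ∧ CComplete m ∧ ¬ SComplete m := by
  refine ⟨P, inferInstance, P.mul, inferInstance, inferInstance, inferInstance,
    ⟨P.mul_assoc, P.mul_comm, P.mul_idem, P.continuous_mul⟩, ?_, ?_⟩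
  · intro F hF hFup C hCF hne hC
    have hup : ∀ x ∈ F, ∀ y, P.mul x y = x → y ∈ F := by
      intro x hx y hxy
      rw [hFup]
      exact ⟨x, hx, hxy⟩
    obtain ⟨i, hi, h1, h2⟩ := P.exists_inf hF hup C hCF hne hC
    obtain ⟨s, hs, h3⟩ := P.exists_max C hne hC
    exact ⟨⟨i, ⟨h1, h2⟩, hi⟩, s, ⟨h3, fun z hz => hz s hs⟩,
      subset_closure ⟨s, hs, P.mul_idem s⟩⟩
  · rintro ⟨h, -⟩
    obtain ⟨i, ⟨hi, -⟩, hcl⟩ := h (range fun n : ℕ => P.fin n n 0 le_rfl) (range_nonempty _) (by
      rintro _ ⟨n, rfl⟩ _ ⟨k, rfl⟩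
      exact ⟨max n k, by simp⟩)
    refine P.bad (fun n => hi _ ⟨n, rfl⟩) ?_
    refine closure_mono ?_ hcl
    rintro x ⟨_, ⟨n, rfl⟩, hx⟩
    exact ⟨n, hx⟩

end Pool.Agent.Results.MP_5a7388_gt.NotSComplete
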